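import Pool.Agent.helper94.T1.SpecA

set_option autoImplicit false

open scoped MatrixGroups ContDiff Topology UpperHalfPlane ComplexConjugate
open UpperHalfPlane MeasureTheory Filter Set

namespace Pool.Agent.T1

open Pool.Agent.RS Pool.Agent.MS Pool.Agent.HV

theorem LB1_aM : Continuous aM := by
  unfold aM
  refine Continuous.subtype_mk ?_ _
  refine continuous_matrix fun i j => ?_
  fin_cases i <;> fin_cases j
  · change Continuous fun t : ℝ => Real.exp (t / 2)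
    fun_prop
  · change Continuous fun t : ℝ => (0 : ℝ)
    fun_prop
  · change Continuous fun t : ℝ => (0 : ℝ)
    fun_prop
  · change Continuous fun t : ℝ => Real.exp (-(t / 2))
    fun_prop

theorem LB1_av {κ : SL(2, ℝ) → ℝ} (hκc : Continuous κ) (hκ : ∀ g, 0 ≤ κ g ∧ κ g ≤ 1) (g : SL(2, ℝ)) {W W' n : ℝ}
    (hW' : 0 < W') (h1 : W' ≤ W) (h2 : W - W' ≤ n) : |TP.av κ W' g - TP.av κ W g| ≤ n / W := by
  have hW : 0 < W := hW'.trans_le h1
  have hx : Continuous fun s : ℝ => κ (g * aM s) := hκc.comp (continuous_const.mul LB1_aM)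
  obtain ⟨I', hI'⟩ : ∃ I', I' = ∫ s in (0 : ℝ)..W', κ (g * aM s) := ⟨_, rfl⟩
  obtain ⟨J, hJ⟩ : ∃ J, J = ∫ s in W'..W, κ (g * aM s) := ⟨_, rfl⟩
  have hI : ∫ s in (0 : ℝ)..W, κ (g * aM s) = I' + J := by
    rw [hI', hJ]
    exact (intervalIntegral.integral_add_adjacent_intervals (hx.intervalIntegrable _ _) (hx.intervalIntegrable _ _)).symm
  have bnd : ∀ a b : ℝ, a ≤ b → 0 ≤ ∫ s in a..b, κ (g * aM s) ∧ ∫ s in a..b, κ (g * aM s) ≤ b - a := by
    intro a b hab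
    refine ⟨intervalIntegral.integral_nonneg hab fun s _ => (hκ _).1, ?_⟩
    have h3 := intervalIntegral.integral_mono_on (g := fun _ => (1 : ℝ)) (μ := volume) hab (hx.intervalIntegrable a b)
      intervalIntegrable_const (fun s _ => (hκ (g * aM s)).2)
    simpa using h3
  obtain ⟨i1, i2⟩ := bnd 0 W' hW'.le
  obtain ⟨j1, j2⟩ := bnd W' W h1
  rw [← hI'] at i1 i2
  rw [← hJ] at j1 j2
  unfold TP.av
  rw [hI, ← hI']
  obtain ⟨A, hA⟩ : ∃ A, A = I' / W' := ⟨_, rfl⟩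
  have hA0 : 0 ≤ A := by
    rw [hA]
    positivity
  have hA1 : A ≤ 1 := by
    rw [hA, div_le_one hW']
    linarith
  have hAI : I' = A * W' := by
    rw [hA]
    field_simp
  rw [← hA]
  have e1 : A - (I' + J) / W = (A * (W - W') - J) / W := by
    rw [hAI]
    field_simp
    ring
  rw [e1, abs_div, abs_of_pos hW]
  refine div_le_div_of_nonneg_right ?_ hW.le
  have e2 : 0 ≤ A * (W - W') := mul_nonneg hA0 (by linarith)
  have e3 : A * (W - W') ≤ 1 * (W - W') := mul_le_mul_of_nonneg_right hA1 (by linarith)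
  rw [abs_le]
  constructor <;> linarith

/-- the cutoff `h` -/
theorem LB1_h (h3 : TP.PCH_stmt) : ∃ (C : ℝ) (h h' : ℝ → ℝ), 1 ≤ C ∧ TP.CB C h h' ∧ (∀ x, x ≤ 1 / 30 → h x = 1) ∧
    ∀ x, 1 / 26 ≤ x → h x = 0 := by
  obtain ⟨C, χ, χ', -, -, hC, hχ, -, hCH, -⟩ := h3
  refine ⟨88 * C, fun x => 1 - χ (351 / 4 * x - 23 / 8), fun x => -(χ' (351 / 4 * x - 23 / 8) * (351 / 4)), by linarith,
    ⟨?_, ?_, ?_, ?_⟩, ?_, ?_⟩
  · intro x
    obtain ⟨a1, a2⟩ := hχ.rg (351 / 4 * x - 23 / 8)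
    constructor <;> linarith
  · intro x
    have e1 : HasDerivAt (fun x : ℝ => 351 / 4 * x - 23 / 8) (351 / 4) x := by
      have e2 := ((hasDerivAt_id x).const_mul (351 / 4 : ℝ)).sub_const (23 / 8)
      simpa using e2
    exact ((hχ.dv (351 / 4 * x - 23 / 8)).comp x e1).const_sub 1
  · have := hχ.ct
    fun_prop
  · intro x
    rw [abs_neg, abs_mul, abs_of_pos (show (0 : ℝ) < 351 / 4 by norm_num)]
    have := hχ.bd (351 / 4 * x - 23 / 8)
    nlinarith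
  · intro x hx
    have e1 := hCH.1 (351 / 4 * x - 23 / 8) (by linarith)
    change 1 - χ (351 / 4 * x - 23 / 8) = 1
    rw [e1, sub_zero]
  · intro x hx
    have e1 := hCH.2 (351 / 4 * x - 23 / 8) (by linarith)
    change 1 - χ (351 / 4 * x - 23 / 8) = 0
    rw [e1, sub_self]

/-- the measure theoretic end -/
theorem LB1_meas {Ω : Type} [MeasurableSpace Ω] (P : Measure Ω) [IsFiniteMeasure P] {A A1 f : Ω → ℝ} (hA : Measurable A)
    (hA1 : Measurable A1) (hf : Measurable f) {h : ℝ → ℝ} (hh : Measurable h) (h01 : ∀ x, 0 ≤ h x ∧ h x ≤ 1)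
    (hh1 : ∀ x, x ≤ 1 / 30 → h x = 1) (hh0 : ∀ x, 1 / 26 ≤ x → h x = 0) {c2 c3 : ℝ} (hc2 : 0 < c2) (hc2' : c2 ≤ 1 / 100)
    (hAf : ∀ x, |A x - f x| ≤ min (c2 / 2) (1 / 1000)) (hP : c3 ≤ P.real {x | 1 / 25 ≤ f x ∧ f x ≤ 1 - 2 * c2})
    (hst : |∫ x, h (A x) ∂P - ∫ x, h (A1 x) ∂P| ≤ c3 / 2) :
    P.real {x | 1 - c2 ≤ A x} + P.real {x | A1 x < 1 / 30} ≤ P.real univ - c3 / 2 := by
  have i0 : ∀ B : Ω → ℝ, Measurable B → Integrable (fun x => h (B x)) P := by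
    intro B hB
    refine Integrable.of_bound (hh.comp hB).aestronglyMeasurable 1 (Eventually.of_forall fun x => ?_)
    rw [Real.norm_eq_abs, abs_of_nonneg (h01 _).1]
    exact (h01 _).2
  have m1 : MeasurableSet {x | A1 x < 1 / 30} := measurableSet_lt hA1 measurable_const
  have m2 : MeasurableSet {x | A x < 1 / 26} := measurableSet_lt hA measurable_const
  have m3 : MeasurableSet {x | 1 - c2 ≤ A x} := measurableSet_le measurable_const hA
  have m4 : MeasurableSet {x | 1 / 25 ≤ f x ∧ f x ≤ 1 - 2 * c2} :=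
    (measurableSet_le measurable_const hf).inter (measurableSet_le hf measurable_const)
  have e1 : P.real {x | A1 x < 1 / 30} ≤ ∫ x, h (A1 x) ∂P := by
    rw [← integral_indicator_one m1]
    refine integral_mono ((integrable_const (1 : ℝ)).indicator m1) (i0 A1 hA1) fun x => ?_
    by_cases hx : x ∈ {x | A1 x < 1 / 30}
    · rw [indicator_of_mem hx, Pi.one_apply]
      exact (hh1 _ (le_of_lt hx)).symm.le
    · rw [indicator_of_notMem hx]
      exact (h01 _).1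
  have e2 : ∫ x, h (A x) ∂P ≤ P.real {x | A x < 1 / 26} := by
    rw [← integral_indicator_one m2]
    refine integral_mono (i0 A hA) ((integrable_const (1 : ℝ)).indicator m2) fun x => ?_
    by_cases hx : x ∈ {x | A x < 1 / 26}
    · rw [indicator_of_mem hx, Pi.one_apply]
      exact (h01 _).2
    · rw [indicator_of_notMem hx]
      exact (hh0 _ (not_lt.1 hx)).le
  have hmin1 : min (c2 / 2) (1 / 1000) ≤ c2 / 2 := min_le_left _ _
  have hmin2 : min (c2 / 2) (1 / 1000) ≤ (1 / 1000 : ℝ) := min_le_right _ _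
  have d1 : Disjoint {x | 1 - c2 ≤ A x} {x | A x < 1 / 26} := by
    refine Set.disjoint_left.2 fun x hx hx' => ?_
    simp only [Set.mem_ofPred_eq] at hx hx'
    linarith
  have d2 : Disjoint ({x | 1 - c2 ≤ A x} ∪ {x | A x < 1 / 26}) {x | 1 / 25 ≤ f x ∧ f x ≤ 1 - 2 * c2} := by
    refine Set.disjoint_left.2 fun x hx hx' => ?_
    obtain ⟨a1, a2⟩ := abs_le.1 (hAf x)
    obtain ⟨b1, b2⟩ := hx'
    rcases hx with hx | hx
    · have hx2 : 1 - c2 ≤ A x := hx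
      linarith
    · have hx2 : A x < 1 / 26 := hx
      linarith
  have e3 : P.real {x | 1 - c2 ≤ A x} + P.real {x | A x < 1 / 26} + P.real {x | 1 / 25 ≤ f x ∧ f x ≤ 1 - 2 * c2} ≤ P.real univ := by
    rw [← measureReal_union d1 m2, ← measureReal_union d2 m4]
    exact measureReal_mono (subset_univ _)
  have e4 := (abs_le.1 hst).1
  linarith

theorem LB1_proof (h1 : TP.PDF_stmt) (h2 : TP.PIN_stmt) (h3 : TP.PCH_stmt) (h4 : TP.PAV_stmt) (h5 : RS.GFD_stmt) (h6 : RS.FL0_stmt) (h7 : RS.CV1_stmt) (h8 : RS.GBD_stmt) (h9 : MS.STB_stmt) : LB1_stmt := by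
  intro β α hβ hα w0 hw0 hw1
  obtain ⟨c2, c3, hc2, hc2', hc3, hD⟩ := h1 β α hβ hα w0 hw0 hw1
  obtain ⟨-, -, -, -, hmono, -⟩ := h9
  have hα4 : BA (1 / 4) α := (hmono (1 / 8) (1 / 4) α (by norm_num)).2.1 hα
  refine ⟨c2 / 4, c3 / 4, by linarith, by linarith, by linarith, ?_⟩
  intro Γ F hΓ hF
  obtain ⟨a1, ha1, hD⟩ := hD Γ F hΓ hF
  refine ⟨a1, ha1, ?_⟩
  intro a Cκ ha haa1 hCκ
  obtain ⟨n1, hn1, hD⟩ := hD a Cκ ha haa1 hCκ
  refine ⟨n1, ?_⟩
  intro N0 A κ κa κn κl hN0 hCO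
  obtain ⟨R1, hR1, hD⟩ := hD N0 A κ κa κn κl hN0 hCO.ca hCO.sf hCO.k01 hCO.ev hCO.kn hCO.kl hCO.sp
  obtain ⟨C0, h, h', hC0, hh, hh1, hh0⟩ := LB1_h h3
  obtain ⟨C, hC⟩ : ∃ C, C = C0 + Cκ := ⟨_, rfl⟩
  have hC1 : 1 ≤ C := by rw [hC]; linarith
  have hCC0 : C0 ≤ C := by rw [hC]; linarith
  have hCCκ : Cκ ≤ C := by rw [hC]; linarith
  have hhC : TP.CB C h h' := ⟨hh.rg, hh.dv, hh.ct, fun x => (hh.bd x).trans hCC0⟩
  obtain ⟨s, hs0, hI⟩ := h2 Γ F β α hΓ hF hβ hα4 C (c3 / 2) hC1 (by linarith)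
  obtain ⟨rI, hrI, hI⟩ := hI s le_rfl
  have hN01 : (1 : ℝ) ≤ N0 := by exact_mod_cast hn1.trans hN0
  obtain ⟨n, hn⟩ : ∃ n : ℝ, n = Real.log N0 := ⟨_, rfl⟩
  have hn0 : 0 ≤ n := by rw [hn]; exact Real.log_nonneg hN01
  have hexpn : Real.exp n = N0 := by rw [hn]; exact Real.exp_log (by linarith)
  obtain ⟨ε1, hε1⟩ : ∃ ε1 : ℝ, ε1 = min (c2 / 2) (1 / 1000) := ⟨_, rfl⟩
  have hε0 : 0 < ε1 := by
    rw [hε1]
    exact lt_min (by linarith) (by norm_num)
  obtain ⟨L0, hL0⟩ : ∃ L0 : ℝ, L0 = (n + 1 + s + n / ε1) / w0 := ⟨_, rfl⟩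
  refine ⟨R1 + rI + Real.exp L0, by linarith [Real.exp_pos L0], ?_⟩
  intro r t1 φ hr hφ hnn ht1 ht1' hmass t M' ht ht' hM1 hM2
  have hexp := Real.exp_pos L0
  have hr1 : R1 ≤ r := by linarith
  have hr2 : rI ≤ r := by linarith
  have hrpos : 0 < r := by linarith
  have hLL : L0 ≤ Real.log r := by
    rw [Real.le_log_iff_exp_le hrpos]
    linarith
  obtain ⟨L, hL⟩ : ∃ L, L = Real.log r := ⟨_, rfl⟩
  rw [← hL] at hLL ht ht' hM1 hM2
  rw [← hn] at hM1 hM2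
  have hnε : 0 ≤ n / ε1 := by positivity
  have hW0 : n + 1 + s + n / ε1 ≤ w0 * L := by
    rw [hL0, div_le_iff₀ hw0] at hLL
    linarith
  have hLpos : 0 ≤ L := by
    by_contra hcon
    push Not at hcon
    nlinarith
  have hW1 : 1 ≤ (M' : ℝ) * n := by linarith
  obtain ⟨W', hW'⟩ : ∃ W', W' = (M' : ℝ) * n := ⟨_, rfl⟩
  have hκc : Continuous κ := hCO.sf.i0.1
  have hbl : ∀ g, |κl g| ≤ C * Real.exp n := by
    intro g
    rw [hexpn]
    exact (hCO.kl g).trans (mul_le_mul_of_nonneg_right hCCκ (by linarith))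
  have havc : ∀ W : ℝ, 0 < W → Continuous (TP.av κ W) := by
    intro W hW
    obtain ⟨-, -, Aa, An, Al, hA1, -⟩ := h4 Γ κ κa κn κl W C (C * Real.exp n) hCO.sf hCO.k01
      (fun g => (hCO.kn g).trans hCCκ) hbl hW
    exact hA1.i0.1
  obtain ⟨hI1, -, -⟩ := hI n κ κa κn κl h h' h h' r φ hn0 hCO.sf hCO.k01 (fun g => (hCO.kn g).trans hCCκ) hbl hhC hhC hr2
    hφ hnn W' (by rw [hW']; exact hW1)
  obtain ⟨hc, hb⟩ := APL_pfm h6 h7 h8 hΓ hβ hα4 (r := r) hφ
  have hfinP := PM_fin h5 hΓ hF hrpos.le hc hb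
  have hPI := PM_int F β α r φ hrpos.le hc
  rw [← hn, ← hW']
  have hW'0 : 0 < W' := by rw [hW']; linarith
  have hWL : 0 < w0 * L := by linarith
  have hc2e : 4 * (c2 / 4) = c2 := by ring
  have hc3e : 2 * (c3 / 4) = c3 / 2 := by ring
  rw [hc2e, hc3e]
  have hmW : ∀ (W : ℝ) (τ : ℝ), 0 < W → Measurable fun g : SL(2, ℝ) => TP.av κ W (g * aM τ) := fun W τ hW =>
    ((havc W hW).comp (continuous_id.mul continuous_const)).measurable
  have hhm : Measurable h := (continuous_iff_continuousAt.mpr fun x => (hh.dv x).continuousAt).measurable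
  refine LB1_meas (PM F β α r φ) (A := fun g => TP.av κ W' (g * aM t)) (A1 := fun g => TP.av κ W' (g * aM (t + W')))
    (f := fun g => TP.av κ (w0 * L) (g * aM t)) (hmW _ _ hW'0) (hmW _ _ hW'0) (hmW _ _ hWL) hhm hh.rg hh1 hh0 hc2 hc2'
    (fun g => ?_) ?_ ?_
  · rw [← hε1]
    refine (LB1_av hκc hCO.k01 (g * aM t) (n := n) hW'0 (by rw [hW']; exact hM1) (by rw [hW']; linarith)).trans ?_
    rw [div_le_iff₀ hWL]
    have e1 : n / ε1 ≤ w0 * L := by linarith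
    rw [div_le_iff₀ hε0] at e1
    linarith
  · have e1 := hD r φ hr1 hφ hnn ⟨t1, ht1, ht1', hmass⟩ t (by rw [← hL]; exact ht) (by rw [← hL]; nlinarith)
    rw [← hL] at e1
    have m4 : MeasurableSet {g : SL(2, ℝ) | 1 / 25 ≤ TP.av κ (w0 * L) (g * aM t) ∧ TP.av κ (w0 * L) (g * aM t) ≤ 1 - 2 * c2} :=
      (measurableSet_le measurable_const (hmW _ _ hWL)).inter (measurableSet_le (hmW _ _ hWL) measurable_const)
    rw [← integral_indicator_one m4, hPI]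
    refine e1.trans (le_of_eq ?_)
    unfold EX
    refine congrArg (fun x => r * x) (congrArg (iR F) (funext fun g => ?_))
    by_cases hg : g ∈ {g : SL(2, ℝ) | 1 / 25 ≤ TP.av κ (w0 * L) (g * aM t) ∧ TP.av κ (w0 * L) (g * aM t) ≤ 1 - 2 * c2}
    · rw [indicator_of_mem hg, indicator_of_mem hg, Pi.one_apply, one_mul]
    · rw [indicator_of_notMem hg, indicator_of_notMem hg, zero_mul]
  · rw [hPI, hPI]
    have k1 : s ≤ t := by linarith
    have k2 : t + W' + W' ≤ Real.log r - n - s := by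
      rw [← hL, hW']
      nlinarith
    exact hI1 t (t + W') k1 (by linarith) (by linarith) (by linarith)

end Pool.Agent.T1
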