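import Pool.Agent.helper65.T1.SpecN

set_option autoImplicit false

open MeasureTheory

namespace Pool.Agent.T1

noncomputable section

open Classical in
/-- counting, with a bound for the difference of `|s3 - s4|` and `|s1 - s2|` -/
theorem NQ2_cnt (hNSP : NSP_stmt) (N : ℕ) (U : Finset ℤ) (X T μ P D0 : ℝ) (S : Finset (ℤ × ℤ)) (hN : 1 ≤ N) (hU : ∀ k ∈ U, |k| ≤ 2 * N)
    (hX : |X| ≤ 1 / 4) (hT : 0 < T) (hTN : T ≤ 12 * N) (hμ : 0 ≤ μ)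
    (hS : ∀ x ∈ S, x.1 ∈ U ∧ x.2 ∈ U ∧ |P - (Nsx N X x.1 + Nsx N X x.2)| ≤ 1 / T ∧ |(|Nsx N X x.1 - Nsx N X x.2|) - D0| ≤ μ) :
    (S.card : ℝ) ≤ 540 * (N / T) * (N / T + N * μ) := by
  obtain ⟨-, -, h3⟩ := hNSP N X hN hX
  have hN0 : (0 : ℝ) < N := by exact_mod_cast hN
  obtain ⟨ℓ, hℓ⟩ : ∃ ℓ : ℝ, ℓ = 1 / T + μ := ⟨_, rfl⟩
  have hℓ0 : 0 ≤ ℓ := by rw [hℓ]; positivity
  obtain ⟨K1, hK1⟩ : ∃ K1 : Finset ℤ, K1 = {k ∈ U | (P + D0) / 2 - ℓ / 2 ≤ Nsx N X k ∧ Nsx N X k ≤ (P + D0) / 2 - ℓ / 2 + ℓ} := ⟨_, rfl⟩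
  obtain ⟨K2, hK2⟩ : ∃ K2 : Finset ℤ, K2 = {k ∈ U | (P - D0) / 2 - ℓ / 2 ≤ Nsx N X k ∧ Nsx N X k ≤ (P - D0) / 2 - ℓ / 2 + ℓ} := ⟨_, rfl⟩
  have c1 : (K1.card : ℝ) ≤ 1 + 3 * N * ℓ := by rw [hK1]; exact h3 U _ ℓ hU hℓ0
  have c2 : (K2.card : ℝ) ≤ 1 + 3 * N * ℓ := by rw [hK2]; exact h3 U _ ℓ hU hℓ0
  have hmem : ∀ x ∈ S, x.1 ∈ K1 ∪ K2 := by
    intro x hx
    obtain ⟨hx1, hx2, ha, hd⟩ := hS x hx
    have ha' := abs_le.1 ha
    have hd' := abs_le.1 hd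
    rw [Finset.mem_union]
    rcases le_total (Nsx N X x.2) (Nsx N X x.1) with h | h
    · left
      rw [abs_of_nonneg (sub_nonneg.2 h)] at hd'
      rw [hK1, Finset.mem_filter]
      refine ⟨hx1, ?_, ?_⟩
      · rw [hℓ]; linarith [ha'.1, ha'.2, hd'.1, hd'.2]
      · rw [hℓ]; linarith [ha'.1, ha'.2, hd'.1, hd'.2]
    · right
      rw [abs_of_nonpos (sub_nonpos.2 h)] at hd'
      rw [hK2, Finset.mem_filter]
      refine ⟨hx1, ?_, ?_⟩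
      · rw [hℓ]; linarith [ha'.1, ha'.2, hd'.1, hd'.2]
      · rw [hℓ]; linarith [ha'.1, ha'.2, hd'.1, hd'.2]
  have hfib : ∀ k3 ∈ K1 ∪ K2, (((S.filter fun x => x.1 = k3).card : ℕ) : ℝ) ≤ 1 + 3 * N * (2 / T) := by
    intro k3 _
    have h4 : (S.filter fun x => x.1 = k3).card ≤
        ({k ∈ U | P - Nsx N X k3 - 1 / T ≤ Nsx N X k ∧ Nsx N X k ≤ P - Nsx N X k3 - 1 / T + 2 / T} : Finset ℤ).card := by
      refine Finset.card_le_card_of_injOn Prod.snd ?_ ?_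
      · intro x hx
        obtain ⟨hx, hx3⟩ := Finset.mem_filter.1 hx
        obtain ⟨hx1, hx2, ha, hd⟩ := hS x hx
        have ha' := abs_le.1 ha
        rw [hx3] at ha'
        have e2 : 2 / T = 1 / T + 1 / T := by ring
        refine Finset.mem_coe.2 (Finset.mem_filter.2 ⟨hx2, ?_, ?_⟩)
        · linarith [ha'.1, ha'.2]
        · rw [e2]; linarith [ha'.1, ha'.2]
      · intro x hx y hy hxy
        obtain ⟨-, hx3⟩ := Finset.mem_filter.1 hx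
        obtain ⟨-, hy3⟩ := Finset.mem_filter.1 hy
        exact Prod.ext (hx3.trans hy3.symm) hxy
    have h5 := h3 U (P - Nsx N X k3 - 1 / T) (2 / T) hU (by positivity)
    exact le_trans (by exact_mod_cast h4) h5
  have hcard : (S.card : ℝ) ≤ (1 + 3 * N * ℓ + (1 + 3 * N * ℓ)) * (1 + 3 * N * (2 / T)) := by
    rw [Finset.card_eq_sum_card_fiberwise hmem, Nat.cast_sum]
    refine (Finset.sum_le_sum hfib).trans ?_
    rw [Finset.sum_const, nsmul_eq_mul]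
    refine mul_le_mul_of_nonneg_right ?_ (by positivity)
    have h6 : ((K1 ∪ K2).card : ℝ) ≤ K1.card + K2.card := by exact_mod_cast Finset.card_union_le K1 K2
    linarith
  have hq : 1 ≤ 12 * ((N : ℝ) / T) := by
    rw [← mul_div_assoc, le_div_iff₀ hT]
    linarith
  obtain ⟨q, hq2⟩ : ∃ q : ℝ, q = (N : ℝ) / T := ⟨_, rfl⟩
  have e1 : 3 * N * ℓ = 3 * q + 3 * (N * μ) := by rw [hℓ, hq2]; ring
  have e2 : 3 * N * (2 / T) = 6 * q := by rw [hq2]; ring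
  rw [← hq2] at hq ⊢
  rw [e1, e2] at hcard
  have hm0 : 0 ≤ N * μ := by positivity
  have hq0 : 0 < q := by linarith
  obtain ⟨m, hm⟩ : ∃ m : ℝ, m = N * μ := ⟨_, rfl⟩
  rw [← hm] at hcard hm0 ⊢
  calc (S.card : ℝ) ≤ (1 + (3 * q + 3 * m) + (1 + (3 * q + 3 * m))) * (1 + 6 * q) := hcard
    _ ≤ (2 * (15 * q + 3 * m)) * (18 * q) := mul_le_mul (by linarith) (by linarith) (by positivity) (by positivity)
    _ ≤ 540 * q * (q + m) := by nlinarith [mul_nonneg hq0.le hm0]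

open Classical in
theorem NQ2_proof (hNSP : NSP_stmt) : NQ2_stmt := by
  intro N U X T H k1 k2 hN hU hX hk1 hk2 hH hHT hTN
  have hT : 0 < T := by linarith
  have hH0 : 0 < H := by linarith
  have hN0 : (0 : ℝ) < N := by exact_mod_cast hN
  obtain ⟨h1, h2, -⟩ := hNSP N X hN hX
  obtain ⟨S, hS⟩ : ∃ S : Finset (ℤ × ℤ), S = {x ∈ U ×ˢ U | |(Nsx N X k1 + Nsx N X k2) - (Nsx N X x.1 + Nsx N X x.2)| ≤ 1 / T ∧
    |(Nsx N X k1 ^ 2 + Nsx N X k2 ^ 2) - (Nsx N X x.1 ^ 2 + Nsx N X x.2 ^ 2)| ≤ 1 / H} := ⟨_, rfl⟩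
  have hdat : ∀ x ∈ S, x.1 ∈ U ∧ x.2 ∈ U ∧ |(Nsx N X k1 + Nsx N X k2) - (Nsx N X x.1 + Nsx N X x.2)| ≤ 1 / T ∧
      |(|Nsx N X x.1 - Nsx N X x.2|) - (|Nsx N X k1 - Nsx N X k2|)| * (|Nsx N X x.1 - Nsx N X x.2| + |Nsx N X k1 - Nsx N X k2|) ≤ 18 / H := by
    intro x hx
    rw [hS, Finset.mem_filter, Finset.mem_product] at hx
    obtain ⟨⟨hx1, hx2⟩, ha, hb⟩ := hx
    refine ⟨hx1, hx2, ha, ?_⟩
    have b1 := h1 k1 (hU k1 hk1)
    have b2 := h1 k2 (hU k2 hk2)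
    have b3 := h1 x.1 (hU _ hx1)
    have b4 := h1 x.2 (hU _ hx2)
    obtain ⟨s1, e1⟩ : ∃ s, s = Nsx N X k1 := ⟨_, rfl⟩
    obtain ⟨s2, e2⟩ : ∃ s, s = Nsx N X k2 := ⟨_, rfl⟩
    obtain ⟨s3, e3⟩ : ∃ s, s = Nsx N X x.1 := ⟨_, rfl⟩
    obtain ⟨s4, e4⟩ : ∃ s, s = Nsx N X x.2 := ⟨_, rfl⟩
    rw [← e1] at b1
    rw [← e2] at b2
    rw [← e3] at b3
    rw [← e4] at b4
    rw [← e1, ← e2, ← e3, ← e4] at ha hb ⊢
    have h5 : |(|s3 - s4|) - (|s1 - s2|)| * (|s3 - s4| + |s1 - s2|) = |(s3 - s4) ^ 2 - (s1 - s2) ^ 2| := by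
      have h50 : (s3 - s4) ^ 2 - (s1 - s2) ^ 2 = ((|s3 - s4|) - (|s1 - s2|)) * (|s3 - s4| + |s1 - s2|) := by
        rw [← sq_abs (s3 - s4), ← sq_abs (s1 - s2)]
        ring
      rw [h50, abs_mul, abs_of_nonneg (show 0 ≤ |s3 - s4| + |s1 - s2| by positivity)]
    rw [h5]
    have h6 : (s3 - s4) ^ 2 - (s1 - s2) ^ 2 = -2 * ((s1 ^ 2 + s2 ^ 2) - (s3 ^ 2 + s4 ^ 2)) +
        ((s1 + s2) - (s3 + s4)) * ((s1 + s2) + (s3 + s4)) := by ring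
    rw [h6]
    have h7 : |(s1 + s2) + (s3 + s4)| ≤ 16 := by
      have := abs_add_le (s1 + s2) (s3 + s4)
      have := abs_add_le s1 s2
      have := abs_add_le s3 s4
      linarith
    have h8 : |((s1 + s2) - (s3 + s4)) * ((s1 + s2) + (s3 + s4))| ≤ 1 / T * 16 := by
      rw [abs_mul]
      exact mul_le_mul ha h7 (abs_nonneg _) (by positivity)
    have h9 : |(-2 : ℝ) * ((s1 ^ 2 + s2 ^ 2) - (s3 ^ 2 + s4 ^ 2))| ≤ 2 * (1 / H) := by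
      rw [abs_mul, abs_neg, abs_two]
      exact mul_le_mul_of_nonneg_left hb (by norm_num)
    have h10 : 1 / T ≤ 1 / H := one_div_le_one_div_of_le hH0 hHT
    have h11 : 18 / H = 2 * (1 / H) + 1 / H * 16 := by ring
    rw [h11]
    refine (abs_add_le _ _).trans (add_le_add h9 (h8.trans ?_))
    exact mul_le_mul_of_nonneg_right h10 (by norm_num)
  rw [← hS]
  refine ⟨?_, fun hne => ?_⟩
  · refine NQ2_cnt hNSP N U X T (5 / Real.sqrt H) (Nsx N X k1 + Nsx N X k2) (|Nsx N X k1 - Nsx N X k2|) S hN hU hX hT hTN (by positivity) fun x hx => ?_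
    obtain ⟨hx1, hx2, ha, hd⟩ := hdat x hx
    refine ⟨hx1, hx2, ha, ?_⟩
    obtain ⟨D, hD⟩ : ∃ D, D = |Nsx N X x.1 - Nsx N X x.2| := ⟨_, rfl⟩
    obtain ⟨E, hE⟩ : ∃ E, E = |Nsx N X k1 - Nsx N X k2| := ⟨_, rfl⟩
    rw [← hD, ← hE] at hd ⊢
    have hD0 : 0 ≤ D := by rw [hD]; positivity
    have hE0 : 0 ≤ E := by rw [hE]; positivity
    have h5 : |D - E| ≤ D + E := by
      rw [abs_le]
      constructor <;> linarith
    have h6 : |D - E| ^ 2 ≤ 25 / H := by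
      calc |D - E| ^ 2 = |D - E| * |D - E| := by ring
        _ ≤ |D - E| * (D + E) := mul_le_mul_of_nonneg_left h5 (abs_nonneg _)
        _ ≤ 18 / H := hd
        _ ≤ 25 / H := by gcongr; norm_num
    have h7 : (5 / Real.sqrt H) ^ 2 = 25 / H := by
      rw [div_pow, Real.sq_sqrt hH0.le]
      norm_num
    exact abs_le_of_sq_le_sq' (by rw [h7, ← sq_abs]; exact h6) (by positivity) |> abs_le.2
  · have hk0 : (0 : ℝ) < |(k1 : ℝ) - k2| := by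
      rw [abs_pos, sub_ne_zero]
      exact_mod_cast hne
    refine NQ2_cnt hNSP N U X T (54 * N / (H * |(k1 : ℝ) - k2|)) (Nsx N X k1 + Nsx N X k2) (|Nsx N X k1 - Nsx N X k2|) S hN hU hX hT hTN (by positivity) fun x hx => ?_
    obtain ⟨hx1, hx2, ha, hd⟩ := hdat x hx
    refine ⟨hx1, hx2, ha, ?_⟩
    have h5 := h2 k1 k2 (hU k1 hk1) (hU k2 hk2)
    obtain ⟨D, hD⟩ : ∃ D, D = |Nsx N X x.1 - Nsx N X x.2| := ⟨_, rfl⟩
    obtain ⟨E, hE⟩ : ∃ E, E = |Nsx N X k1 - Nsx N X k2| := ⟨_, rfl⟩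
    rw [← hE] at h5
    rw [← hD, ← hE] at hd ⊢
    have hD0 : 0 ≤ D := by rw [hD]; positivity
    rw [le_div_iff₀ (by positivity)]
    have h6 : |D - E| * E ≤ 18 / H :=
      le_trans (mul_le_mul_of_nonneg_left (by linarith) (abs_nonneg _)) hd
    calc |D - E| * (H * |(k1 : ℝ) - k2|) ≤ |D - E| * (H * (3 * N * E)) := by gcongr
      _ = (|D - E| * E) * (3 * N * H) := by ring
      _ ≤ 18 / H * (3 * N * H) := mul_le_mul_of_nonneg_right h6 (by positivity)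
      _ = 54 * N := by field_simp; norm_num

end

end Pool.Agent.T1
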